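import Pool.Agent.Results.MP_f21612_lc.RelativeCofinality

/-!
# A maximal ideal on `ω` which is the union of a strictly increasing `ω₁`-chain of ideals

In ZFC there is a strictly increasing sequence `⟨J α : α < ω₁⟩` of ideals on `ω` whose union is a
maximal ideal on `ω` (the posed question; the answer is yes).

Proof. Let `(A i)`, `i < ω₁`, be an independent family of subsets of `ω` and let `N` be an ideal
which is maximal among the ideals containing no Boolean combination of the family. Modulo `N`, each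
set of natural numbers is decided by countably many of the indices. Let `u` be an ultrafilter
which extends the dual filter of `N` and contains all `A i`; let `J α` consist of the sets which are
disjoint from a member of `u` decided by the indices below `α`. The complement of `A α` belongs
to `J (α + 1)` but not to `J α`.
-/

set_option autoImplicit false

open Set Cardinal Ordinal
open Pool.Agent.Results.MP_f21612_lc.RelativeCofinality (W Idx Indep Small cell cell_mono Decides Supp
  exists_indep exists_maximal exists_supp exists_ub Supp.mono Supp.inter Supp.inter_cell)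

namespace Pool.Agent.Results.MP_ea2126_lc.OmegaOneChain

/-- `J` is an ideal on `ω`: `ω ∉ J`, and `J` is closed under finite unions (including the empty
one) and under taking subsets. -/
def IsIdeal (J : Set (Set ℕ)) : Prop :=
  Set.univ ∉ J ∧ ∅ ∈ J ∧ (∀ A ∈ J, ∀ B ∈ J, A ∪ B ∈ J) ∧ ∀ A ∈ J, ∀ B, B ⊆ A → B ∈ J

/-- `I` is a maximal ideal on `ω`: no ideal on `ω` properly contains `I`. -/
def IsMaximalIdeal (I : Set (Set ℕ)) : Prop :=
  IsIdeal I ∧ ∀ I' : Set (Set ℕ), IsIdeal I' → I ⊆ I' → I' = I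

/-- the position of an element of `W` in `ω₁` -/
noncomputable def pos (b : W) : Ordinal.{0} := typein (α := W) (· < ·) b

theorem pos_lt (b : W) : pos b < ω_ 1 := by
  have h := typein_lt_self (o := (ℵ₁ : Cardinal.{0}).ord) b
  have h2 : (ℵ₁ : Cardinal.{0}).ord = ω_ 1 := by simp
  rw [← h2]
  exact h

theorem exists_pos {α : Ordinal.{0}} (h : α < ω_ 1) : ∃ b : W, pos b = α := by
  have h2 : (ℵ₁ : Cardinal.{0}).ord = ω_ 1 := by simp
  have h3 : α < type (α := W) (· < ·) := by
    rw [Ordinal.type_toType, h2]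
    exact h
  exact typein_surj (α := W) (· < ·) h3

theorem pos_lt_pos {a b : W} (h : a < b) : pos a < pos b :=
  (typein_lt_typein (α := W) (· < ·)).2 h

/-- In ZFC there is a strictly increasing sequence `J α`, `α < ω₁`, of ideals on `ω` whose union is
a maximal ideal on `ω`. -/
theorem result : ∃ J : Ordinal.{0} → Set (Set ℕ), (∀ α, α < ω_ 1 → IsIdeal (J α)) ∧
    (∀ α β, α < β → β < ω_ 1 → J α ⊂ J β) ∧
    IsMaximalIdeal (⋃ α : Ordinal.{0}, ⋃ _ : α < ω_ 1, J α) := by
  classical
  obtain ⟨A, hA⟩ := exists_indep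
  obtain ⟨N, hN, hmax⟩ := exists_maximal hA
  let f0 : Filter ℕ :=
    { sets := {Y | ∃ F : Finset Idx, cell A F ∅ \ Y ∈ N}
      univ_sets := ⟨∅, by rw [sdiff_univ]; exact hN.2.2.1 ∅ Set.finite_empty⟩
      sets_of_superset := by
        rintro X Y ⟨F, hF⟩ hXY
        exact ⟨F, hN.1 _ hF _ (sdiff_subset_sdiff_right hXY)⟩
      inter_sets := by
        rintro X Y ⟨F, hF⟩ ⟨G, hG⟩
        refine ⟨F ∪ G, hN.1 _ (hN.2.1 _ hF _ hG) _ ?_⟩
        rintro n ⟨hn, hn'⟩
        by_cases hx : n ∈ X
        · exact Or.inr ⟨cell_mono Finset.subset_union_right (Finset.Subset.refl _) hn,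
            fun hy => hn' ⟨hx, hy⟩⟩
        · exact Or.inl ⟨cell_mono Finset.subset_union_left (Finset.Subset.refl _) hn, hx⟩ }
  have hf0 : f0.NeBot := by
    refine ⟨fun h => ?_⟩
    have : (∅ : Set ℕ) ∈ f0 := by rw [h]; trivial
    obtain ⟨F, hF⟩ := this
    rw [sdiff_empty] at hF
    exact hN.2.2.2 F ∅ (Finset.disjoint_empty_right _) hF
  let u : Ultrafilter ℕ := Ultrafilter.of f0
  have hu0 : ∀ Y, (∃ F : Finset Idx, cell A F ∅ \ Y ∈ N) → Y ∈ u := fun Y hY =>
    Ultrafilter.of_le f0 hY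
  have huN : ∀ Y ∈ N, Yᶜ ∈ u := fun Y hY => hu0 _ ⟨∅, by
    refine hN.1 Y hY _ ?_
    rintro n ⟨_, hn⟩
    exact not_not.1 hn⟩
  have huN' : ∀ X ∈ u, X ∉ N := fun X hX hXN =>
    (Ultrafilter.compl_mem_iff_notMem.1 (huN X hXN)) hX
  have huA : ∀ i, A i ∈ u := fun i => hu0 _ ⟨{i}, by
    refine hN.1 ∅ (hN.2.2.1 ∅ Set.finite_empty) _ ?_
    rintro n ⟨hn, hn'⟩
    exact hn' (hn.1 i (Finset.mem_singleton_self i))⟩
  -- the indices below `α`
  let S : Ordinal.{0} → Set Idx := fun α => {i | ∀ b, i = Sum.inl b → pos b < α}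
  have hSmono : ∀ α β, α ≤ β → S α ⊆ S β := fun α β hab i hi c hc => (hi c hc).trans_le hab
  have hSupp : ∀ X, ∃ α, α < ω_ 1 ∧ Supp A N (S α) X := by
    intro X
    obtain ⟨T, hT, hTX⟩ := exists_supp hA hN hmax X
    have h1 : {b : W | Sum.inl b ∈ T}.Countable := by
      have : {b : W | Sum.inl b ∈ T} = Sum.inl ⁻¹' T := rfl
      rw [this]
      exact hT.preimage Sum.inl_injective
    obtain ⟨a, ha⟩ := exists_ub h1
    have hTS : T ⊆ S (pos a) := by
      intro i hi b hb
      refine pos_lt_pos (ha b ?_)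
      show Sum.inl b ∈ T
      exact hb ▸ hi
    exact ⟨pos a, pos_lt a, hTX.mono hTS⟩
  let J : Ordinal.{0} → Set (Set ℕ) := fun α => {X | ∃ Y ∈ u, Supp A N (S α) Y ∧ X ⊆ Yᶜ}
  have hJmono : ∀ α β, α ≤ β → J α ⊆ J β := by
    rintro α β hab X ⟨Y, hY, hS, hX⟩
    exact ⟨Y, hY, hS.mono (hSmono _ _ hab), hX⟩
  have hJu : ∀ α, ∀ X ∈ J α, Xᶜ ∈ u := by
    rintro α X ⟨Y, hY, -, hX⟩
    exact Filter.mem_of_superset hY (subset_compl_comm.1 hX)
  have hunion : (⋃ α : Ordinal.{0}, ⋃ _ : α < ω_ 1, J α) = {X | Xᶜ ∈ u} := by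
    ext X
    simp only [mem_iUnion, mem_ofPred_eq]
    constructor
    · rintro ⟨α, -, hX⟩
      exact hJu α X hX
    · intro hX
      obtain ⟨α, hα, hs⟩ := hSupp Xᶜ
      refine ⟨α, hα, Xᶜ, hX, hs, ?_⟩
      rw [compl_compl]
  have hempty : ∀ α, Supp A N (S α) Set.univ := by
    intro α F G hFG
    refine ⟨∅, ∅, by simp, by simp, by simp, by simp, by simp, Or.inl ?_⟩
    rw [sdiff_univ]
    exact hN.2.2.1 ∅ Set.finite_empty
  have hideal : ∀ α, IsIdeal (J α) := by
    intro α
    refine ⟨?_, ?_, ?_, ?_⟩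
    · intro h
      have := hJu α _ h
      rw [compl_univ] at this
      exact Filter.empty_notMem u.1 this
    · exact ⟨Set.univ, Filter.univ_mem, hempty α, by simp⟩
    · rintro X ⟨Y, hY, hs, hX⟩ X' ⟨Y', hY', hs', hX'⟩
      refine ⟨Y ∩ Y', Filter.inter_mem hY hY', hs.inter hN hs', ?_⟩
      rw [compl_inter]
      exact union_subset_union hX hX'
    · rintro X ⟨Y, hY, hs, hX⟩ X' hX'
      exact ⟨Y, hY, hs, hX'.trans hX⟩
  refine ⟨J, fun α _ => hideal α, ?_, ?_⟩
  · intro α β hαβ hβ
    refine ⟨hJmono _ _ hαβ.le, fun hsub => ?_⟩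
    obtain ⟨b, hb⟩ := exists_pos (hαβ.trans hβ)
    -- the complement of `A b` is in `J β`
    have h1 : (A (Sum.inl b))ᶜ ∈ J β := by
      refine ⟨A (Sum.inl b), huA _, ?_, subset_rfl⟩
      intro F G hFG
      have hbS : (Sum.inl b : Idx) ∈ S β := by
        intro c hc
        have : b = c := Sum.inl.inj hc
        rw [← this, hb]
        exact hαβ
      by_cases hG : (Sum.inl b : Idx) ∈ G
      · refine ⟨∅, {Sum.inl b}, by simp, by simp, by simpa using hbS, ?_, by simp, Or.inr ?_⟩
        · rw [Finset.disjoint_singleton_right]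
          exact fun h => Finset.disjoint_left.1 hFG h hG
        · refine hN.1 ∅ (hN.2.2.1 ∅ Set.finite_empty) _ ?_
          rintro n ⟨hn, hn'⟩
          exact hn.2 _ (Finset.mem_singleton_self _) hn'
      · refine ⟨{Sum.inl b}, ∅, by simp, by simpa using hbS, by simp, by simp, ?_, Or.inl ?_⟩
        · rw [Finset.disjoint_singleton_left]
          exact hG
        · refine hN.1 ∅ (hN.2.2.1 ∅ Set.finite_empty) _ ?_
          rintro n ⟨hn, hn'⟩
          exact hn' (hn.1 _ (Finset.mem_singleton_self _))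
    -- but not in `J α`
    obtain ⟨Y, hY, hs, hX⟩ := hsub h1
    have h2 := hs.inter_cell hN hmax (huN' Y hY) (G := {Sum.inl b}) (by
      intro a ha hcon
      rw [Finset.mem_singleton] at ha
      have := hcon b ha
      rw [hb] at this
      exact lt_irrefl _ this)
    apply h2
    refine hN.1 ∅ (hN.2.2.1 ∅ Set.finite_empty) _ ?_
    rintro n ⟨hn, hn'⟩
    have h3 : n ∉ A (Sum.inl b) := hn'.2 _ (Finset.mem_singleton_self _)
    exact hX h3 hn
  · rw [hunion]
    refine ⟨⟨?_, ?_, ?_, ?_⟩, ?_⟩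
    · intro h
      have h' : (Set.univ : Set ℕ)ᶜ ∈ u := h
      rw [compl_univ] at h'
      exact Filter.empty_notMem u.1 h'
    · show (∅ : Set ℕ)ᶜ ∈ u
      rw [compl_empty]
      exact Filter.univ_mem
    · intro X hX Y hY
      show (X ∪ Y)ᶜ ∈ u
      rw [compl_union]
      exact Filter.inter_mem hX hY
    · intro X hX Y hY
      exact Filter.mem_of_superset hX (compl_subset_compl.2 hY)
    · intro I' hI' hsub
      refine Subset.antisymm (fun X hX => ?_) hsub
      by_contra hcon
      have h1 : X ∈ u := by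
        by_contra h2
        exact hcon (Ultrafilter.compl_mem_iff_notMem.2 h2)
      have h3 : Xᶜ ∈ I' := hsub (by
        show Xᶜᶜ ∈ u
        rwa [compl_compl])
      exact hI'.1 (by
        have := hI'.2.2.1 X hX _ h3
        rwa [union_compl_self] at this)

end Pool.Agent.Results.MP_ea2126_lc.OmegaOneChain
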